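import Pool.Agent.Helper28.T5.StN

/-!
# Project T5, low levels, module CA5: the gluing argument for an arbitrary integral matrix

The proof of Pool/Agent/Helper7/THN/M_CA5.lean with four functions `E(c + r w)`, `c` real.
-/

set_option autoImplicit false

namespace Pool.Agent.Helper45.T5N

open Pool.Agent.Helper28.T5 Pool.Agent.Helper28.WK Pool.Agent.Helper28.LV
open Pool.Agent.Helper14.WK

private lemma im_neg_inv (z : ℂ) : (-1 / z).im = z.im / Complex.normSq z := by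
  rw [div_eq_mul_inv, neg_one_mul, Complex.neg_im, Complex.inv_im]
  ring

private lemma im_inv' (z : ℂ) : (1 / z).im = -z.im / Complex.normSq z := by
  rw [one_div, Complex.inv_im]

private lemma isClosed_up : IsClosed {z : ℂ | 0 ≤ z.im} :=
  isClosed_le continuous_const Complex.continuous_im

private lemma isClosed_dn : IsClosed {z : ℂ | z.im ≤ 0} :=
  isClosed_le Complex.continuous_im continuous_const

private lemma isOpen_up : IsOpen {z : ℂ | 0 < z.im} :=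
  isOpen_lt continuous_const Complex.continuous_im

private lemma isOpen_dn : IsOpen {z : ℂ | z.im < 0} :=
  isOpen_lt Complex.continuous_im continuous_const

open Classical in
/-- The glued function. -/
private noncomputable def RR (n : ℕ) (g1 g2 k1 k2 : ℂ → ℂ) (P : Polynomial ℂ) (z : ℂ) : ℂ :=
  if 0 ≤ z.im then g1 z - z ^ n * g2 (-1 / z) else z ^ n * k2 (1 / z) - k1 (-z) - P.eval z

private lemma RR_up (n : ℕ) (g1 g2 k1 k2 : ℂ → ℂ) (P : Polynomial ℂ) {z : ℂ} (hz : 0 ≤ z.im) :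
    RR n g1 g2 k1 k2 P z = g1 z - z ^ n * g2 (-1 / z) := by
  unfold RR
  rw [if_pos hz]

private lemma RR_dn (n : ℕ) (g1 g2 k1 k2 : ℂ → ℂ) (P : Polynomial ℂ)
    (h : ∀ x : ℝ, x ≠ 0 → (x : ℂ) ^ n * (g2 (-1 / (x : ℂ)) + k2 (1 / (x : ℂ))) =
      g1 x + k1 (-x) + P.eval (x : ℂ)) {z : ℂ} (hz : z.im ≤ 0) (h0 : z ≠ 0) :
    RR n g1 g2 k1 k2 P z = z ^ n * k2 (1 / z) - k1 (-z) - P.eval z := by
  unfold RR
  split_ifs with h1
  · have h2 : z.im = 0 := le_antisymm hz h1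
    have h3 : ((z.re : ℝ) : ℂ) = z := by
      apply Complex.ext
      · simp
      · simp [h2]
    have h4 : z.re ≠ 0 := by
      intro h5
      rw [h5] at h3
      exact h0 (by rw [← h3]; simp)
    have h6 := h z.re h4
    rw [h3] at h6
    linear_combination -h6
  · rfl

private lemma cont_up (n : ℕ) (g1 g2 : ℂ → ℂ) (hE1 : ContinuousOn g1 {z : ℂ | 0 ≤ z.im})
    (hE2 : ContinuousOn g2 {z : ℂ | 0 ≤ z.im}) {z : ℂ}
    (hz : 0 ≤ z.im) (h0 : z ≠ 0) :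
    ContinuousWithinAt (fun w => g1 w - w ^ n * g2 (-1 / w)) {z : ℂ | 0 ≤ z.im} z := by
  refine (hE1 z hz).sub ((continuous_id.pow n).continuousWithinAt.mul ?_)
  have h1 : ContinuousWithinAt (fun w : ℂ => -1 / w) {z : ℂ | 0 ≤ z.im} z :=
    (continuousAt_const.div continuousAt_id h0).continuousWithinAt
  refine ContinuousWithinAt.comp (t := {z : ℂ | 0 ≤ z.im}) (hE2 (-1 / z) ?_) h1 ?_
  · show 0 ≤ (-1 / z).im
    rw [im_neg_inv]
    exact div_nonneg hz (Complex.normSq_nonneg z)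
  · intro w hw
    show 0 ≤ (-1 / w).im
    rw [im_neg_inv]
    exact div_nonneg hw (Complex.normSq_nonneg w)

private lemma cont_dn (n : ℕ) (k1 k2 : ℂ → ℂ) (P : Polynomial ℂ)
    (hE1 : ContinuousOn k1 {z : ℂ | 0 ≤ z.im}) (hE2 : ContinuousOn k2 {z : ℂ | 0 ≤ z.im})
    {z : ℂ} (hz : z.im ≤ 0) (h0 : z ≠ 0) :
    ContinuousWithinAt (fun w => w ^ n * k2 (1 / w) - k1 (-w) - P.eval w) {z : ℂ | z.im ≤ 0} z := by
  refine (((continuous_id.pow n).continuousWithinAt.mul ?_).sub ?_).sub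
    P.continuous.continuousWithinAt
  · have h1 : ContinuousWithinAt (fun w : ℂ => 1 / w) {z : ℂ | z.im ≤ 0} z :=
      (continuousAt_const.div continuousAt_id h0).continuousWithinAt
    refine ContinuousWithinAt.comp (t := {z : ℂ | 0 ≤ z.im}) (hE2 (1 / z) ?_) h1 ?_
    · show 0 ≤ (1 / z).im
      rw [im_inv']
      exact div_nonneg (by linarith) (Complex.normSq_nonneg z)
    · intro w hw
      have hw' : w.im ≤ 0 := hw
      show 0 ≤ (1 / w).im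
      rw [im_inv']
      exact div_nonneg (by linarith) (Complex.normSq_nonneg w)
  · have h1 : ContinuousWithinAt (fun w : ℂ => -w) {z : ℂ | z.im ≤ 0} z :=
      continuous_neg.continuousWithinAt
    refine ContinuousWithinAt.comp (t := {z : ℂ | 0 ≤ z.im}) (hE1 (-z) ?_) h1 ?_
    · show 0 ≤ (-z).im
      rw [Complex.neg_im]
      linarith
    · intro w hw
      have hw' : w.im ≤ 0 := hw
      show 0 ≤ (-w).im
      rw [Complex.neg_im]
      linarith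

private lemma RR_cont (n : ℕ) (g1 g2 k1 k2 : ℂ → ℂ) (P : Polynomial ℂ)
    (hg1 : ContinuousOn g1 {z : ℂ | 0 ≤ z.im}) (hg2 : ContinuousOn g2 {z : ℂ | 0 ≤ z.im})
    (hk1 : ContinuousOn k1 {z : ℂ | 0 ≤ z.im}) (hk2 : ContinuousOn k2 {z : ℂ | 0 ≤ z.im})
    (h : ∀ x : ℝ, x ≠ 0 → (x : ℂ) ^ n * (g2 (-1 / (x : ℂ)) + k2 (1 / (x : ℂ))) =
      g1 x + k1 (-x) + P.eval (x : ℂ)) : ContinuousOn (RR n g1 g2 k1 k2 P) {0}ᶜ := by
  intro z hz
  have h0 : z ≠ 0 := hz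
  have h1 : ContinuousWithinAt (RR n g1 g2 k1 k2 P) {z : ℂ | 0 ≤ z.im} z := by
    by_cases hz' : 0 ≤ z.im
    · refine (cont_up n g1 g2 hg1 hg2 hz' h0).congr (fun w hw => RR_up n g1 g2 k1 k2 P hw)
        (RR_up n g1 g2 k1 k2 P hz')
    · refine continuousWithinAt_of_notMem_closure ?_
      rw [isClosed_up.closure_eq]
      exact hz'
  have h2 : ContinuousWithinAt (RR n g1 g2 k1 k2 P) {z : ℂ | z.im ≤ 0} z := by
    by_cases hz' : z.im ≤ 0
    · have h3 : ContinuousWithinAt (RR n g1 g2 k1 k2 P) ({z : ℂ | z.im ≤ 0} ∩ {0}ᶜ) z := by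
        refine ((cont_dn n k1 k2 P hk1 hk2 hz' h0).mono Set.inter_subset_left).congr
          (fun w hw => RR_dn n g1 g2 k1 k2 P h hw.1 hw.2) (RR_dn n g1 g2 k1 k2 P h hz' h0)
      have h4 : {z : ℂ | z.im ≤ 0} ∩ {0}ᶜ ∈ nhdsWithin z {z : ℂ | z.im ≤ 0} :=
        Filter.inter_mem self_mem_nhdsWithin
          (mem_nhdsWithin_of_mem_nhds (isOpen_compl_singleton.mem_nhds h0))
      exact h3.mono_of_mem_nhdsWithin h4
    · refine continuousWithinAt_of_notMem_closure ?_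
      rw [isClosed_dn.closure_eq]
      exact hz'
  have h3 := h1.union h2
  refine h3.mono fun w _ => ?_
  rcases le_total 0 w.im with h4 | h4
  · exact Or.inl h4
  · exact Or.inr h4

private lemma dif_G (n : ℕ) (E : ℂ → ℂ) (hD : DifferentiableOn ℂ E {z : ℂ | 0 < z.im}) :
    DifferentiableOn ℂ (fun w : ℂ => w ^ n * E (-1 / w)) {z : ℂ | 0 < z.im} := by
  intro z hz
  have hz' : 0 < z.im := hz
  have h0 : z ≠ 0 := by
    rintro rfl
    simp at hz'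
  have h1 : DifferentiableAt ℂ E (-1 / z) := by
    refine (hD (-1 / z) ?_).differentiableAt (isOpen_up.mem_nhds ?_)
    · show 0 < (-1 / z).im
      rw [im_neg_inv]
      exact div_pos hz' (Complex.normSq_pos.2 h0)
    · show 0 < (-1 / z).im
      rw [im_neg_inv]
      exact div_pos hz' (Complex.normSq_pos.2 h0)
  have h2 : DifferentiableAt ℂ (fun w : ℂ => -1 / w) z :=
    (differentiableAt_const _).div differentiableAt_id h0
  have h3 : DifferentiableAt ℂ (fun w : ℂ => E (-1 / w)) z :=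
    DifferentiableAt.comp (f := fun w : ℂ => -1 / w) z h1 h2
  exact ((differentiableAt_id.pow n).mul h3).differentiableWithinAt

private lemma RR_dif (n : ℕ) (g1 g2 k1 k2 : ℂ → ℂ) (P : Polynomial ℂ)
    (hg1 : DifferentiableOn ℂ g1 {z : ℂ | 0 < z.im}) (hg2 : DifferentiableOn ℂ g2 {z : ℂ | 0 < z.im})
    (hk1 : DifferentiableOn ℂ k1 {z : ℂ | 0 < z.im}) (hk2 : DifferentiableOn ℂ k2 {z : ℂ | 0 < z.im})
    (h : ∀ x : ℝ, x ≠ 0 → (x : ℂ) ^ n * (g2 (-1 / (x : ℂ)) + k2 (1 / (x : ℂ))) =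
      g1 x + k1 (-x) + P.eval (x : ℂ)) :
    ∀ z ∈ ({0}ᶜ : Set ℂ), z.im ≠ 0 → DifferentiableAt ℂ (RR n g1 g2 k1 k2 P) z := by
  intro z hz him
  have h0 : z ≠ 0 := hz
  rcases lt_or_gt_of_ne him with hz' | hz'
  · have h1 : DifferentiableAt ℂ k2 (1 / z) := by
      have hp : 0 < (1 / z).im := by
        rw [im_inv']
        exact div_pos (by linarith) (Complex.normSq_pos.2 h0)
      exact (hk2 (1 / z) hp).differentiableAt (isOpen_up.mem_nhds hp)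
    have h2 : DifferentiableAt ℂ (fun w : ℂ => 1 / w) z :=
      (differentiableAt_const _).div differentiableAt_id h0
    have h3 : DifferentiableAt ℂ (fun w : ℂ => k2 (1 / w)) z :=
      DifferentiableAt.comp (f := fun w : ℂ => 1 / w) z h1 h2
    have h4 : DifferentiableAt ℂ k1 (-z) := by
      have hp : 0 < (-z).im := by
        rw [Complex.neg_im]
        linarith
      exact (hk1 (-z) hp).differentiableAt (isOpen_up.mem_nhds hp)
    have h5 : DifferentiableAt ℂ (fun w : ℂ => k1 (-w)) z :=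
      DifferentiableAt.comp (f := fun w : ℂ => -w) z h4 differentiableAt_id.neg
    have h6 : DifferentiableAt ℂ (fun w => w ^ n * k2 (1 / w) - k1 (-w) - P.eval w) z :=
      (((differentiableAt_id.pow n).mul h3).sub h5).sub P.differentiable.differentiableAt
    refine h6.congr_of_eventuallyEq ?_
    filter_upwards [isOpen_dn.mem_nhds (show z ∈ {z : ℂ | z.im < 0} from hz'),
      isOpen_compl_singleton.mem_nhds (show z ∈ ({0}ᶜ : Set ℂ) from h0)] with w hw hw0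
    have hw' : w.im < 0 := hw
    exact RR_dn n g1 g2 k1 k2 P h hw'.le hw0
  · have hz2 : 0 < z.im := hz'
    have h1 : DifferentiableAt ℂ g1 z := (hg1 z hz2).differentiableAt (isOpen_up.mem_nhds hz2)
    have h2 : DifferentiableAt ℂ (fun w : ℂ => w ^ n * g2 (-1 / w)) z :=
      (dif_G n g2 hg2 z hz2).differentiableAt (isOpen_up.mem_nhds hz2)
    refine (h1.sub h2).congr_of_eventuallyEq ?_
    filter_upwards [isOpen_up.mem_nhds (show z ∈ {z : ℂ | 0 < z.im} from hz2)] with w hw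
    have hw' : 0 < w.im := hw
    exact RR_up n g1 g2 k1 k2 P hw'.le

private lemma RR_bd (n : ℕ) (g1 g2 k1 k2 : ℂ → ℂ) (P : Polynomial ℂ) (hP : P.natDegree ≤ n)
    (C : ℝ) (hg1 : ∀ z : ℂ, 0 ≤ z.im → ‖g1 z‖ ≤ C) (hg2 : ∀ z : ℂ, 0 ≤ z.im → ‖g2 z‖ ≤ C)
    (hk1 : ∀ z : ℂ, 0 ≤ z.im → ‖k1 z‖ ≤ C) (hk2 : ∀ z : ℂ, 0 ≤ z.im → ‖k2 z‖ ≤ C) :
    ∃ C' : ℝ, ∀ z : ℂ, z ≠ 0 → ‖RR n g1 g2 k1 k2 P z‖ ≤ C' * (1 + ‖z‖) ^ n := by
  have hC0 : 0 ≤ C := (norm_nonneg _).trans (hg1 0 (by simp))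
  refine ⟨2 * C + ∑ i ∈ Finset.range (n + 1), ‖P.coeff i‖, fun z _ => ?_⟩
  have hz0 : 0 ≤ ‖z‖ := norm_nonneg z
  have h1 : 1 ≤ (1 + ‖z‖) ^ n := one_le_pow₀ (by linarith)
  have h2 : ‖z‖ ^ n ≤ (1 + ‖z‖) ^ n := pow_le_pow_left₀ hz0 (by linarith) n
  have hS : 0 ≤ ∑ i ∈ Finset.range (n + 1), ‖P.coeff i‖ :=
    Finset.sum_nonneg fun i _ => norm_nonneg _
  have h3 : ‖P.eval z‖ ≤ (∑ i ∈ Finset.range (n + 1), ‖P.coeff i‖) * (1 + ‖z‖) ^ n := by
    rw [Polynomial.eval_eq_sum_range' (Nat.lt_succ_of_le hP), Finset.sum_mul]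
    refine (norm_sum_le _ _).trans (Finset.sum_le_sum fun i hi => ?_)
    rw [norm_mul, norm_pow]
    refine mul_le_mul_of_nonneg_left ?_ (norm_nonneg _)
    have h9 : ‖z‖ ≤ 1 + ‖z‖ := by linarith
    refine (pow_le_pow_left₀ hz0 h9 i).trans ?_
    exact pow_le_pow_right₀ (by linarith) (Nat.lt_succ_iff.1 (Finset.mem_range.1 hi))
  have key : ∀ u v : ℂ, ‖u‖ ≤ C → ‖v‖ ≤ C → ‖u‖ + ‖z‖ ^ n * ‖v‖ ≤ 2 * C * (1 + ‖z‖) ^ n := by
    intro u v hu hv
    have h4 : ‖u‖ ≤ C * (1 + ‖z‖) ^ n := by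
      calc ‖u‖ ≤ C * 1 := by rw [mul_one]; exact hu
        _ ≤ C * (1 + ‖z‖) ^ n := mul_le_mul_of_nonneg_left h1 hC0
    have h5 : ‖z‖ ^ n * ‖v‖ ≤ (1 + ‖z‖) ^ n * C :=
      mul_le_mul h2 hv (norm_nonneg _) (by linarith)
    linarith
  have hpow : 0 ≤ (1 + ‖z‖) ^ n := by linarith
  unfold RR
  split_ifs with hz
  · have h6 : ‖g1 z - z ^ n * g2 (-1 / z)‖ ≤ ‖g1 z‖ + ‖z‖ ^ n * ‖g2 (-1 / z)‖ := by
      refine (norm_sub_le _ _).trans ?_
      rw [norm_mul, norm_pow]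
    have h7 := key (g1 z) (g2 (-1 / z)) (hg1 z hz) (hg2 _ (by
      rw [im_neg_inv]
      exact div_nonneg hz (Complex.normSq_nonneg z)))
    have h8 : 0 ≤ (∑ i ∈ Finset.range (n + 1), ‖P.coeff i‖) * (1 + ‖z‖) ^ n :=
      mul_nonneg hS hpow
    rw [add_mul]
    linarith
  · have hz' : z.im < 0 := not_le.1 hz
    have h6 : ‖z ^ n * k2 (1 / z) - k1 (-z) - P.eval z‖ ≤
        ‖k1 (-z)‖ + ‖z‖ ^ n * ‖k2 (1 / z)‖ + ‖P.eval z‖ := by
      refine (norm_sub_le _ _).trans ?_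
      have h9 := norm_sub_le (z ^ n * k2 (1 / z)) (k1 (-z))
      rw [norm_mul, norm_pow] at h9
      linarith
    have h7 := key (k1 (-z)) (k2 (1 / z)) (hk1 _ (by rw [Complex.neg_im]; linarith)) (hk2 _ (by
      rw [im_inv']
      exact div_nonneg (by linarith) (Complex.normSq_nonneg z)))
    rw [add_mul]
    linarith

private lemma im_af (c r : ℝ) (z : ℂ) : ((c : ℂ) + (r : ℂ) * z).im = r * z.im := by
  rw [Complex.add_im, Complex.im_ofReal_mul, Complex.ofReal_im, zero_add]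

private lemma it_scale (c : ℂ) (f : ℂ → ℂ) (k : ℕ) :
    iteratedDeriv k (fun w => f (c * w)) = fun w => c ^ k * iteratedDeriv k f (c * w) := by
  induction k with
  | zero =>
    funext w
    simp
  | succ k ih =>
    rw [iteratedDeriv_succ, ih, iteratedDeriv_succ]
    funext w
    rw [deriv_const_mul_field]
    have h := deriv_comp_mul_left c (iteratedDeriv k f) w
    simp only [smul_eq_mul] at h
    rw [h]
    ring

private lemma it_shift (d : ℂ) (f : ℂ → ℂ) (k : ℕ) :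
    iteratedDeriv k (fun w => f (d + w)) = fun w => iteratedDeriv k f (d + w) := by
  induction k with
  | zero =>
    funext w
    simp
  | succ k ih =>
    rw [iteratedDeriv_succ, ih, iteratedDeriv_succ]
    funext w
    exact deriv_comp_const_add (iteratedDeriv k f) d w

/-- the function `E(c + r w)` -/
private noncomputable def Ec (n : ℕ) (b : ℕ → ℂ) (r c : ℝ) (w : ℂ) : ℂ :=
  EE n b ((c : ℂ) + (r : ℂ) * w)

private lemma Ec_cont (n : ℕ) (b : ℕ → ℂ) (r c : ℝ) (hr : 0 < r)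
    (h : ContinuousOn (EE n b) {z : ℂ | 0 ≤ z.im}) : ContinuousOn (Ec n b r c) {z : ℂ | 0 ≤ z.im} := by
  refine ContinuousOn.comp (t := {z : ℂ | 0 ≤ z.im}) h
    (continuous_const.add (continuous_const.mul continuous_id)).continuousOn ?_
  intro w hw
  have hw' : 0 ≤ w.im := hw
  show 0 ≤ ((c : ℂ) + (r : ℂ) * w).im
  rw [im_af]
  exact mul_nonneg hr.le hw'

private lemma Ec_diff (n : ℕ) (b : ℕ → ℂ) (r c : ℝ) (hr : 0 < r)
    (h : DifferentiableOn ℂ (EE n b) {z : ℂ | 0 < z.im}) :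
    DifferentiableOn ℂ (Ec n b r c) {z : ℂ | 0 < z.im} := by
  refine DifferentiableOn.comp (t := {z : ℂ | 0 < z.im}) h
    ((differentiable_const (c : ℂ)).add (differentiable_id.const_mul (r : ℂ))).differentiableOn ?_
  intro w hw
  have hw' : 0 < w.im := hw
  show 0 < ((c : ℂ) + (r : ℂ) * w).im
  rw [im_af]
  exact mul_pos hr hw'

private lemma Ec_bd (n : ℕ) (b : ℕ → ℂ) (r c : ℝ) (hr : 0 < r) (C : ℝ)
    (h : ∀ z : ℂ, 0 ≤ z.im → ‖EE n b z‖ ≤ C) (w : ℂ) (hw : 0 ≤ w.im) : ‖Ec n b r c w‖ ≤ C := by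
  refine h _ ?_
  rw [im_af]
  exact mul_nonneg hr.le hw

private lemma Ec_it (n : ℕ) (b : ℕ → ℂ) (r c : ℝ) (hr : 0 < r)
    (h : ∀ z : ℂ, 0 < z.im → iteratedDeriv (n + 1) (EE n b) z = FF b z) (w : ℂ) (hw : 0 < w.im) :
    iteratedDeriv (n + 1) (Ec n b r c) w = (r : ℂ) ^ (n + 1) * FF b ((c : ℂ) + (r : ℂ) * w) := by
  have e1 := congrFun (it_scale (r : ℂ) (fun v => EE n b ((c : ℂ) + v)) (n + 1)) w
  have e2 := congrFun (it_shift (c : ℂ) (EE n b) (n + 1)) ((r : ℂ) * w)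
  have e3 := h ((c : ℂ) + (r : ℂ) * w) (by rw [im_af]; exact mul_pos hr hw)
  exact e1.trans (congrArg (fun t => (r : ℂ) ^ (n + 1) * t) (e2.trans e3))

/-- Module CA5. -/
theorem hCA5 : ZCA5 := by
  intro h1 h2 h3 h4 a b P α β γ δ hP hb0 hs hD hγ hx z hz
  obtain ⟨n, hn⟩ : ∃ n : ℕ, n = 2 * a := ⟨_, rfl⟩
  rw [← hn] at hP hs
  obtain ⟨c1, c2, ⟨C, c3⟩, c4⟩ := h1 n b hb0 hs
  obtain ⟨D, hDd⟩ : ∃ D : ℝ, D = ((α * δ - β * γ : ℤ) : ℝ) := ⟨_, rfl⟩
  have hD0 : 0 < D := by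
    rw [hDd]
    exact_mod_cast hD
  obtain ⟨s, hsd⟩ : ∃ s : ℝ, s = Real.sqrt D := ⟨_, rfl⟩
  have hs0 : 0 < s := by
    rw [hsd]
    exact Real.sqrt_pos.2 hD0
  have hs2 : s ^ 2 = D := by rw [hsd, Real.sq_sqrt hD0.le]
  have hg0 : (0 : ℝ) < (γ : ℝ) := by exact_mod_cast hγ
  have hgc : (γ : ℂ) ≠ 0 := by
    have : (γ : ℤ) ≠ 0 := hγ.ne'
    exact_mod_cast this
  have hsc : (s : ℂ) ≠ 0 := by exact_mod_cast hs0.ne'
  have hDc : ((α * δ - β * γ : ℤ) : ℂ) = (s : ℂ) ^ 2 := by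
    have h : ((D : ℝ) : ℂ) = ((α * δ - β * γ : ℤ) : ℂ) := by
      rw [hDd]
      norm_cast
    rw [← h, ← hs2]
    push_cast
    ring
  have hDc' : (α : ℂ) * δ - β * γ = (s : ℂ) ^ 2 := by
    rw [← hDc]
    push_cast
    ring
  obtain ⟨r, hrd⟩ : ∃ r : ℝ, r = s / γ := ⟨_, rfl⟩
  have hr0 : 0 < r := by
    rw [hrd]
    positivity
  have hrc : (r : ℂ) = (s : ℂ) / (γ : ℂ) := by
    rw [hrd]
    push_cast
    ring
  have hrc0 : (r : ℂ) ≠ 0 := by exact_mod_cast hr0.ne'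
  -- the four real shifts
  obtain ⟨p1, hp1⟩ : ∃ t : ℝ, t = -(δ : ℝ) / γ := ⟨_, rfl⟩
  obtain ⟨p2, hp2⟩ : ∃ t : ℝ, t = (α : ℝ) / γ := ⟨_, rfl⟩
  obtain ⟨p3, hp3⟩ : ∃ t : ℝ, t = (δ : ℝ) / γ := ⟨_, rfl⟩
  obtain ⟨p4, hp4⟩ : ∃ t : ℝ, t = -(α : ℝ) / γ := ⟨_, rfl⟩
  have hp1c : (p1 : ℂ) = -(δ : ℂ) / γ := by rw [hp1]; push_cast; ring
  have hp2c : (p2 : ℂ) = (α : ℂ) / γ := by rw [hp2]; push_cast; ring
  have hp3c : (p3 : ℂ) = (δ : ℂ) / γ := by rw [hp3]; push_cast; ring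
  have hp4c : (p4 : ℂ) = -(α : ℂ) / γ := by rw [hp4]; push_cast; ring
  obtain ⟨Q, hQ⟩ : ∃ Q : Polynomial ℂ, Q = Polynomial.C (((s : ℂ) ^ n)⁻¹) *
      P.comp (Polynomial.C (r : ℂ) * Polynomial.X + Polynomial.C (p1 : ℂ)) :=
    ⟨_, rfl⟩
  have hQd : Q.natDegree ≤ n := by
    rw [hQ]
    refine (Polynomial.natDegree_C_mul_le _ _).trans (Polynomial.natDegree_comp_le.trans ?_)
    have h : (Polynomial.C (r : ℂ) * Polynomial.X + Polynomial.C (p1 : ℂ)).natDegree ≤ 1 :=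
      Polynomial.natDegree_linear_le
    calc P.natDegree * (Polynomial.C (r : ℂ) * Polynomial.X + Polynomial.C (p1 : ℂ)).natDegree ≤
          P.natDegree * 1 := Nat.mul_le_mul_left _ h
      _ ≤ n := by rw [mul_one]; exact hP
  have hQe : ∀ w : ℂ, Q.eval w = ((s : ℂ) ^ n)⁻¹ * P.eval ((p1 : ℂ) + (r : ℂ) * w) := by
    intro w
    rw [hQ, Polynomial.eval_mul, Polynomial.eval_C, Polynomial.eval_comp, Polynomial.eval_add,
      Polynomial.eval_mul, Polynomial.eval_C, Polynomial.eval_X, Polynomial.eval_C, add_comm]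
  have hx' : ∀ x : ℝ, x ≠ 0 →
      (x : ℂ) ^ n * (Ec n b r p2 (-1 / (x : ℂ)) + Ec n b r p4 (1 / (x : ℂ))) =
      Ec n b r p1 x + Ec n b r p3 (-x) + Q.eval (x : ℂ) := by
    intro x hx0
    have hxc : (x : ℂ) ≠ 0 := by exact_mod_cast hx0
    obtain ⟨y, hy⟩ : ∃ y : ℝ, y = p1 + r * x := ⟨_, rfl⟩
    have hyc : (y : ℂ) = (p1 : ℂ) + (r : ℂ) * x := by
      rw [hy]
      push_cast
      ring
    have hden : (γ : ℂ) * (y : ℂ) + δ = (s : ℂ) * x := by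
      rw [hyc, hp1c, hrc]
      field_simp
      ring
    have hdenr : (γ : ℝ) * y + δ ≠ 0 := by
      have e : (γ : ℝ) * y + δ = s * x := by
        rw [hy, hp1, hrd]
        field_simp
        ring
      rw [e]
      exact mul_ne_zero hs0.ne' hx0
    have h := hx y hdenr
    rw [← hn, hDc, hden] at h
    have hsx : (s : ℂ) * x ≠ 0 := mul_ne_zero hsc hxc
    have a1 : ((α : ℂ) * (y : ℂ) + β) / ((s : ℂ) * x) = (p2 : ℂ) + (r : ℂ) * (-1 / (x : ℂ)) := by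
      rw [div_eq_iff hsx, hyc, hp1c, hp2c, hrc]
      field_simp
      linear_combination -hDc'
    have a2 : -(((α : ℂ) * (y : ℂ) + β) / ((s : ℂ) * x)) = (p4 : ℂ) + (r : ℂ) * (1 / (x : ℂ)) := by
      rw [a1, hp2c, hp4c]
      ring
    have a3 : (p3 : ℂ) + (r : ℂ) * (-(x : ℂ)) = -(y : ℂ) := by
      rw [hyc, hp1c, hp3c]
      ring
    have a4 : ((s : ℂ) ^ 2) ^ a = (s : ℂ) ^ n := by rw [← pow_mul, hn]
    have hsn : (s : ℂ) ^ n ≠ 0 := pow_ne_zero _ hsc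
    rw [a2, a1, a4, mul_pow] at h
    show (x : ℂ) ^ n * (EE n b ((p2 : ℂ) + (r : ℂ) * (-1 / (x : ℂ))) +
        EE n b ((p4 : ℂ) + (r : ℂ) * (1 / (x : ℂ)))) =
      EE n b ((p1 : ℂ) + (r : ℂ) * (x : ℂ)) + EE n b ((p3 : ℂ) + (r : ℂ) * (-(x : ℂ))) +
        Q.eval (x : ℂ)
    rw [a3, hQe, ← hyc]
    apply mul_left_cancel₀ hsn
    have e5 : (s : ℂ) ^ n * (((s : ℂ) ^ n)⁻¹ * Polynomial.eval (y : ℂ) P) = Polynomial.eval (y : ℂ) P :=
      mul_inv_cancel_left₀ hsn _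
    linear_combination h - e5
  have k1 := Ec_cont n b r p1 hr0 c1
  have k2 := Ec_cont n b r p2 hr0 c1
  have k3 := Ec_cont n b r p3 hr0 c1
  have k4 := Ec_cont n b r p4 hr0 c1
  have l1 := Ec_diff n b r p1 hr0 c2
  have l2 := Ec_diff n b r p2 hr0 c2
  have l3 := Ec_diff n b r p3 hr0 c2
  have l4 := Ec_diff n b r p4 hr0 c2
  have hdiff : DifferentiableOn ℂ
      (RR n (Ec n b r p1) (Ec n b r p2) (Ec n b r p3) (Ec n b r p4) Q) {0}ᶜ :=
    h2 _ _ isOpen_compl_singleton (RR_cont n _ _ _ _ Q k1 k2 k3 k4 hx')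
      (RR_dif n _ _ _ _ Q l1 l2 l3 l4 hx')
  obtain ⟨C', hC'⟩ := RR_bd n (Ec n b r p1) (Ec n b r p2) (Ec n b r p3) (Ec n b r p4) Q hQd C
    (Ec_bd n b r p1 hr0 C c3) (Ec_bd n b r p2 hr0 C c3) (Ec_bd n b r p3 hr0 C c3)
    (Ec_bd n b r p4 hr0 C c3)
  obtain ⟨y, hy⟩ : ∃ y : ℂ, y = ((γ : ℂ) * z + δ) / s := ⟨_, rfl⟩
  have hsy : (s : ℂ) * y = (γ : ℂ) * z + δ := by
    rw [hy]
    field_simp
  have hyim : 0 < y.im := by
    have e : ((s : ℂ) * y).im = γ * z.im := by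
      rw [hsy]
      simp
    rw [Complex.im_ofReal_mul] at e
    have h : 0 < s * y.im := by
      rw [e]
      exact mul_pos hg0 hz
    exact (mul_pos_iff_of_pos_left hs0).1 h
  have hy0 : y ≠ 0 := by
    intro h0
    rw [h0] at hyim
    simp at hyim
  have h5 := h3 n _ C' hdiff hC' y hy0
  have h6 : RR n (Ec n b r p1) (Ec n b r p2) (Ec n b r p3) (Ec n b r p4) Q =ᶠ[nhds y]
      (Ec n b r p1 - fun w : ℂ => w ^ n * Ec n b r p2 (-1 / w)) := by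
    filter_upwards [isOpen_up.mem_nhds (show y ∈ {z : ℂ | 0 < z.im} from hyim)] with w hw
    have hw' : 0 < w.im := hw
    exact RR_up n _ _ _ _ Q hw'.le
  rw [h6.iteratedDeriv_eq] at h5
  have hE : ContDiffAt ℂ ((n + 1 : ℕ) : WithTop ℕ∞) (Ec n b r p1) y :=
    (l1.analyticAt (isOpen_up.mem_nhds (show y ∈ {z : ℂ | 0 < z.im} from hyim))).contDiffAt
  have hG : ContDiffAt ℂ ((n + 1 : ℕ) : WithTop ℕ∞) (fun w : ℂ => w ^ n * Ec n b r p2 (-1 / w)) y :=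
    ((dif_G n _ l2).analyticAt
      (isOpen_up.mem_nhds (show y ∈ {z : ℂ | 0 < z.im} from hyim))).contDiffAt
  have hy1 : 0 < (-1 / y).im := by
    rw [im_neg_inv]
    exact div_pos hyim (Complex.normSq_pos.2 hy0)
  rw [iteratedDeriv_sub hE hG, Ec_it n b r p1 hr0 c4 y hyim, h4 n _ l2 y hyim,
    Ec_it n b r p2 hr0 c4 _ hy1] at h5
  have h7 : y ^ (n + 2) ≠ 0 := pow_ne_zero _ hy0
  have e1 : (p1 : ℂ) + (r : ℂ) * y = z := by
    have : (r : ℂ) * y = (s : ℂ) * y / γ := by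
      rw [hrc]
      ring
    rw [this, hsy, hp1c]
    field_simp
    ring
  have hne : (γ : ℂ) * z + δ ≠ 0 := by
    rw [← hsy]
    exact mul_ne_zero hsc hy0
  have e2 : (p2 : ℂ) + (r : ℂ) * (-1 / y) = ((α : ℂ) * z + β) / ((γ : ℂ) * z + δ) := by
    have e3 : (r : ℂ) * (-1 / y) = -((s : ℂ) ^ 2 / (γ * ((s : ℂ) * y))) := by
      rw [hrc]
      field_simp
    rw [e3, hsy, hp2c, ← hDc']
    field_simp
    ring
  rw [e1, e2] at h5
  have hrn : (r : ℂ) ^ (n + 1) ≠ 0 := pow_ne_zero _ hrc0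
  obtain ⟨gz, hgz⟩ : ∃ gz : ℂ, gz = ((α : ℂ) * z + β) / ((γ : ℂ) * z + δ) := ⟨_, rfl⟩
  rw [← hgz] at h5 ⊢
  have h8 : FF b z - (y ^ (n + 2))⁻¹ * FF b gz = 0 := by
    have h9 : (r : ℂ) ^ (n + 1) * (FF b z - (y ^ (n + 2))⁻¹ * FF b gz) = 0 := by
      rw [← h5]
      ring
    exact (mul_eq_zero.1 h9).resolve_left hrn
  have h10 : FF b gz = y ^ (n + 2) * FF b z := by
    have h11 : y ^ (n + 2) * (FF b z - (y ^ (n + 2))⁻¹ * FF b gz) = 0 := by
      rw [h8, mul_zero]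
    rw [mul_sub, mul_inv_cancel_left₀ h7] at h11
    linear_combination -h11
  rw [h10, hDc, ← hsy, ← pow_mul, ← mul_assoc, hn]
  have e4 : 2 * (a + 1) = 2 * a + 2 := by omega
  rw [e4, ← mul_pow]

end Pool.Agent.Helper45.T5N
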